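import Pool.Agent.X263.AL.Stm
import Pool.Agent.X111.GN.HT

/-! # Project AL, part HTR: the height inequality from `Rel` -/

set_option autoImplicit false

namespace Pool.Agent.X73.AL

open Finset Polynomial Pool.Agent.W277.UB Pool.Agent.W277.UB.PlaceData
open Pool.Agent.X328.FP (hQ hQ_supp hQ_nonneg le_hQ pf_eq)

universe u v w

theorem t_HTR : Pool.Agent.X263.AL.S_HTR.{u, v, w} := by
  intro d N
  refine ⟨Fintype.card (Pool.Agent.X328.GN.Ix d) * ((N + 1) * N), ?_⟩
  intro k K _ _ _ _ _ Q κ r y G _ hG hrel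
  have hs : (0 : ℤ) ≤ ∑ j, hQ Q (y j) := Finset.sum_nonneg fun j _ => hQ_nonneg Q (y j)
  have h1 : ∀ i, hQ Q (κ i) ≤ ((N + 1) * N : ℕ) * ∑ j, hQ Q (y j) := by
    intro i
    obtain ⟨hne, hz⟩ := hrel i
    have h2 := Pool.Agent.X111.GN.t_HT2.{u, v, w} k K Q N
      (fun m => MvPolynomial.aeval y (G i m)) (κ i) hne hz
    refine h2.trans ?_
    have h3 : ∀ m ∈ range (N + 1), hQ Q (MvPolynomial.aeval y (G i m)) ≤
        (N : ℤ) * ∑ j, hQ Q (y j) := by
      intro m _
      refine (Pool.Agent.X111.GN.t_HT1.{u, v, w} k K Q (Fin r) (G i m) y).trans ?_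
      exact mul_le_mul_of_nonneg_right (by exact_mod_cast hG i m) hs
    refine (Finset.sum_le_sum h3).trans (le_of_eq ?_)
    rw [Finset.sum_const, Finset.card_range, nsmul_eq_mul]
    push_cast
    ring
  refine (Finset.sum_le_sum fun i _ => h1 i).trans (le_of_eq ?_)
  rw [Finset.sum_const, Finset.card_univ, nsmul_eq_mul]
  push_cast
  ring

end Pool.Agent.X73.AL
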